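import Pool.Agent.helper55.FLD.Spec

namespace Pool.Agent.FLD

open Matrix Topology Filter Pool.Agent.GO Pool.Agent.AR

theorem TP_add (p : ℕ) [Fact p.Prime] (B : Type) [Ring B] [Algebra ℚ_[p] B]
    (R : Subring B) (G : Type) [Group G] (Φ : G →* B) (hΦ : ∀ g, Dv p R 2 (Φ g - 1))
    (Z : B) (hZ : Z ∈ TT p R Φ) (Z' : B) (hZ' : Z' ∈ TT p R Φ) : Z + Z' ∈ TT p R Φ := by
  refine ⟨R.add_mem hZ.1 hZ'.1, fun i hi => ?_⟩
  obtain ⟨g, hg⟩ := hZ.2 i hi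
  obtain ⟨g', hg'⟩ := hZ'.2 i hi
  refine ⟨g * g', ?_⟩
  have ha : Dv p R i (Φ g - 1) := by
    have h1 : Dv p R i (Φ g - 1 - ((p : ℚ_[p]) ^ i) • Z) := hg.mono (by omega)
    have h2 : Dv p R i (((p : ℚ_[p]) ^ i) • Z) := ⟨Z, hZ.1, rfl⟩
    have h3 := h1.add h2
    rwa [sub_add_cancel] at h3
  have hb : Dv p R i (((p : ℚ_[p]) ^ i) • Z') := ⟨Z', hZ'.1, rfl⟩
  have hab : Dv p R (2 * i) ((Φ g - 1) * (((p : ℚ_[p]) ^ i) • Z')) := by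
    have := ha.mul hb
    rwa [← two_mul] at this
  have haR : Φ g ∈ R := mem_of_dv_sub_one (hΦ g)
  have hae : Dv p R (2 * i) (Φ g * (Φ g' - 1 - ((p : ℚ_[p]) ^ i) • Z')) := Dv.mul_left haR hg'
  have h4 := (hg.add hab).add hae
  have h5 : Φ (g * g') - 1 - ((p : ℚ_[p]) ^ i) • (Z + Z') =
      Φ g - 1 - ((p : ℚ_[p]) ^ i) • Z + (Φ g - 1) * (((p : ℚ_[p]) ^ i) • Z') +
        Φ g * (Φ g' - 1 - ((p : ℚ_[p]) ^ i) • Z') := by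
    rw [map_mul, smul_add]
    generalize ((p : ℚ_[p]) ^ i) • Z' = w
    generalize ((p : ℚ_[p]) ^ i) • Z = v
    noncomm_ring
  rw [h5]
  exact h4

theorem TP_nsmul (p : ℕ) [Fact p.Prime] (B : Type) [Ring B] [Algebra ℚ_[p] B]
    (R : Subring B) (G : Type) [Group G] (Φ : G →* B) (hΦ : ∀ g, Dv p R 2 (Φ g - 1))
    (Z : B) (hZ : Z ∈ TT p R Φ) (n : ℕ) : n • Z ∈ TT p R Φ := by
  induction n with
  | zero =>
    refine ⟨by simp, fun i _ => ⟨1, ?_⟩⟩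
    simpa using Dv.zero (p := p) (R := R) (2 * i)
  | succ n ih =>
    rw [succ_nsmul]
    exact TP_add p B R G Φ hΦ _ ih _ hZ

theorem TP_appr (p : ℕ) [Fact p.Prime] (c : ℚ_[p]) (hc : ‖c‖ ≤ 1) (i : ℕ) :
    ∃ (n : ℕ) (u : ℚ_[p]), ‖u‖ ≤ 1 ∧ c = n + (p : ℚ_[p]) ^ i * u := by
  have h := PadicInt.appr_spec i (⟨c, hc⟩ : ℤ_[p])
  rw [Ideal.mem_span_singleton'] at h
  obtain ⟨a, ha⟩ := h
  refine ⟨PadicInt.appr (⟨c, hc⟩ : ℤ_[p]) i, (a : ℚ_[p]), a.2, ?_⟩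
  have h2 := congrArg (fun x : ℤ_[p] => (x : ℚ_[p])) ha
  simp only [PadicInt.coe_mul, PadicInt.coe_pow, PadicInt.coe_natCast, PadicInt.coe_sub] at h2
  rw [mul_comm, h2]
  ring

theorem TP_smul (p : ℕ) [Fact p.Prime] (B : Type) [Ring B] [Algebra ℚ_[p] B]
    (R : Subring B) (hR : ∀ (c : ℚ_[p]), ‖c‖ ≤ 1 → ∀ x ∈ R, c • x ∈ R)
    (G : Type) [Group G] (Φ : G →* B) (hΦ : ∀ g, Dv p R 2 (Φ g - 1))
    (c : ℚ_[p]) (hc : ‖c‖ ≤ 1) (Z : B) (hZ : Z ∈ TT p R Φ) : c • Z ∈ TT p R Φ := by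
  refine ⟨hR c hc Z hZ.1, fun i hi => ?_⟩
  obtain ⟨n, u, hu, hcn⟩ := TP_appr p c hc i
  obtain ⟨g, hg⟩ := (TP_nsmul p B R G Φ hΦ Z hZ n).2 i hi
  refine ⟨g, ?_⟩
  have h1 : Dv p R (2 * i) (((p : ℚ_[p]) ^ (2 * i)) • (u • Z)) := ⟨u • Z, hR u hu Z hZ.1, rfl⟩
  have h2 := hg.sub h1
  have h3 : Φ g - 1 - ((p : ℚ_[p]) ^ i) • (c • Z) =
      Φ g - 1 - ((p : ℚ_[p]) ^ i) • (n • Z) - ((p : ℚ_[p]) ^ (2 * i)) • (u • Z) := by
    have h4 : ((p : ℚ_[p]) ^ i) • (c • Z) =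
        ((p : ℚ_[p]) ^ i) • (n • Z) + ((p : ℚ_[p]) ^ (2 * i)) • (u • Z) := by
      rw [← Nat.cast_smul_eq_nsmul ℚ_[p] n Z, smul_smul, smul_smul, smul_smul, ← add_smul]
      congr 1
      rw [hcn]
      ring
    rw [h4]
    abel
  rw [h3]
  exact h2

/-- Row TP. -/
theorem TP : TP_stmt := by
  intro p _ B _ _ _ _ _ _ R hL hR G _ Φ hΦ
  refine ⟨?_, TP_add p B R G Φ hΦ, TP_smul p B R hR G Φ hΦ, ?_, ?_⟩
  · intro g Z hZ hlog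
    refine ⟨hZ, fun i _ => ⟨g ^ p ^ i, ?_⟩⟩
    rw [map_pow]
    exact (hlog i).mono (by omega)
  · intro h Z hZ
    have h1 : Φ h ∈ R := mem_of_dv_sub_one (hΦ h)
    have h2 : Φ h⁻¹ ∈ R := mem_of_dv_sub_one (hΦ h⁻¹)
    have h3 : Φ h * Φ h⁻¹ = 1 := by rw [← map_mul, mul_inv_cancel, map_one]
    refine ⟨R.mul_mem (R.mul_mem h1 hZ.1) h2, fun i hi => ?_⟩
    obtain ⟨g, hg⟩ := hZ.2 i hi
    refine ⟨h * g * h⁻¹, ?_⟩
    have h4 : Φ (h * g * h⁻¹) - 1 - ((p : ℚ_[p]) ^ i) • (Φ h * Z * Φ h⁻¹) =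
        Φ h * (Φ g - 1 - ((p : ℚ_[p]) ^ i) • Z) * Φ h⁻¹ := by
      rw [map_mul, map_mul, mul_sub, mul_sub, sub_mul, sub_mul, mul_one, h3, mul_smul_comm,
        smul_mul_assoc]
    rw [h4]
    exact (hg.mul_left h1).mul_right h2
  · have hRc : IsClosed (R : Set B) := hL.compact.isClosed
    have hS : ∀ i : ℕ, IsClosed {Z : B | ∃ g : G, Dv p R (2 * i) (Φ g - 1 - ((p : ℚ_[p]) ^ i) • Z)} := by
      intro i
      rw [← isOpen_compl_iff, isOpen_iff_mem_nhds]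
      intro Z₀ hZ₀
      have hopen : IsOpen {Z : B | Dv p R i (Z - Z₀)} :=
        (hL.isOpen_dv i).preimage (continuous_id.sub continuous_const)
      refine Filter.mem_of_superset (hopen.mem_nhds (by simpa using Dv.zero (p := p) (R := R) i)) ?_
      intro Z hZ hcon
      obtain ⟨g, hg⟩ := hcon
      apply hZ₀
      refine ⟨g, ?_⟩
      have h1 : Dv p R (i + i) (((p : ℚ_[p]) ^ i) • (Z - Z₀)) := Dv.smul i hZ
      rw [← two_mul] at h1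
      have h2 := hg.add h1
      have h3 : Φ g - 1 - ((p : ℚ_[p]) ^ i) • Z₀ =
          Φ g - 1 - ((p : ℚ_[p]) ^ i) • Z + ((p : ℚ_[p]) ^ i) • (Z - Z₀) := by
        rw [smul_sub]
        abel
      rw [h3]
      exact h2
    have hTT : TT p R Φ = (R : Set B) ∩ ⋂ i : ℕ, ⋂ _ : 2 ≤ i,
        {Z : B | ∃ g : G, Dv p R (2 * i) (Φ g - 1 - ((p : ℚ_[p]) ^ i) • Z)} := by
      ext Z
      simp only [TT, Set.mem_ofPred_eq, Set.mem_inter_iff, SetLike.mem_coe, Set.mem_iInter]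
    have hcl : IsClosed (TT p R Φ) := by
      rw [hTT]
      exact hRc.inter (isClosed_iInter fun i => isClosed_iInter fun _ => hS i)
    exact hL.compact.of_isClosed_subset hcl fun Z hZ => hZ.1

end Pool.Agent.FLD
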